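import Mathlib

/-!
# Cuts without large matchings
-/

set_option autoImplicit false

namespace Pool.Agent.Q114.SW

open Finset

section

variable {V : Type} [Fintype V] [DecidableEq V]

open Classical in
/-- a cut without a matching with `c + 1` edges has a small vertex cover -/
theorem hall (R : V → V → Prop) (A : Finset V) (c : ℕ)
    (h : ¬ ∃ p q : Fin (c + 1) → V, (∀ i, p i ∈ A ∧ q i ∉ A ∧ R (p i) (q i)) ∧
      Function.Injective p ∧ Function.Injective q) :
    ∃ S ⊆ A, (A \ S).card + (univ.filter (fun v => v ∉ A ∧ ∃ x ∈ S, R x v)).card ≤ c := by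
  by_contra hcon
  push Not at hcon
  apply h
  have hA : c + 1 ≤ A.card := by
    have h1 := hcon ∅ (empty_subset _)
    simpa using h1
  set d := A.card - (c + 1) with hd
  let t : {x // x ∈ A} → Finset (V ⊕ Fin d) := fun x =>
    (univ.filter (fun v => v ∉ A ∧ R x.1 v)).disjSum (univ : Finset (Fin d))
  have hall : ∀ s : Finset {x // x ∈ A}, s.card ≤ (s.biUnion t).card := by
    intro s
    rcases s.eq_empty_or_nonempty with rfl | hs
    · simp
    set S : Finset V := s.map ⟨Subtype.val, Subtype.val_injective⟩ with hS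
    have hSA : S ⊆ A := by
      intro x hx
      rw [hS, mem_map] at hx
      obtain ⟨y, _, rfl⟩ := hx
      exact y.2
    have hSc : S.card = s.card := card_map _
    have h1 := hcon S hSA
    rw [card_sdiff_of_subset hSA, hSc] at h1
    have h2 : s.card ≤ A.card := by
      rw [← hSc]
      exact card_le_card hSA
    have h3 : (univ.filter (fun v => v ∉ A ∧ ∃ x ∈ S, R x v)).disjSum (univ : Finset (Fin d)) ⊆
        s.biUnion t := by
      intro z hz
      rw [mem_disjSum] at hz
      rw [mem_biUnion]
      rcases hz with ⟨v, hv, rfl⟩ | ⟨j, _, rfl⟩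
      · rw [mem_filter] at hv
        obtain ⟨-, hvA, x, hx, hxv⟩ := hv
        rw [hS, mem_map] at hx
        obtain ⟨y, hy, rfl⟩ := hx
        refine ⟨y, hy, ?_⟩
        rw [mem_disjSum]
        exact Or.inl ⟨v, mem_filter.2 ⟨mem_univ _, hvA, hxv⟩, rfl⟩
      · obtain ⟨y, hy⟩ := hs
        refine ⟨y, hy, ?_⟩
        rw [mem_disjSum]
        exact Or.inr ⟨j, mem_univ _, rfl⟩
    have h4 := card_le_card h3
    rw [card_disjSum, card_univ, Fintype.card_fin] at h4
    omega
  obtain ⟨f, hf, hft⟩ := (Finset.all_card_le_biUnion_card_iff_exists_injective t).1 hall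
  set B : Finset {x // x ∈ A} := univ.filter (fun x => ∃ v, f x = Sum.inl v) with hB
  have hBc : c + 1 ≤ B.card := by
    have h1 : (univ.filter (fun x => ¬ ∃ v, f x = Sum.inl v)).card ≤ d := by
      have h2 : (univ.filter (fun x => ¬ ∃ v, f x = Sum.inl v)).card ≤
          ((univ : Finset (Fin d)).map ⟨Sum.inr, Sum.inr_injective⟩ :
            Finset (V ⊕ Fin d)).card := by
        refine card_le_card_of_injOn f ?_ (hf.injOn)
        intro x hx
        have hx' := (mem_filter.1 hx).2
        push Not at hx'
        rw [mem_coe, mem_map]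
        rcases h3 : f x with v | j
        · exact absurd h3 (hx' v)
        · exact ⟨j, mem_univ _, rfl⟩
      rwa [card_map, card_univ, Fintype.card_fin] at h2
    have h2 := Finset.card_filter_add_card_filter_not (s := (univ : Finset {x // x ∈ A}))
      (fun x => ∃ v, f x = Sum.inl v)
    rw [card_univ, Fintype.card_coe] at h2
    rw [hB]
    omega
  obtain ⟨B', hB'1, hB'2⟩ := Finset.exists_subset_card_eq hBc
  let e := B'.equivFinOfCardEq hB'2
  have hex : ∀ i : Fin (c + 1), ∃ v, f (e.symm i).1 = Sum.inl v := by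
    intro i
    have h1 := hB'1 (e.symm i).2
    rw [hB, mem_filter] at h1
    exact h1.2
  choose q hq using hex
  refine ⟨fun i => (e.symm i).1.1, q, ?_, ?_, ?_⟩
  · intro i
    have h1 := hft (e.symm i).1
    rw [hq i, mem_disjSum] at h1
    rcases h1 with ⟨v, hv, h2⟩ | ⟨j, _, h2⟩
    · rw [mem_filter] at hv
      have h3 : v = q i := Sum.inl_injective h2
      rw [h3] at hv
      exact ⟨(e.symm i).1.2, hv.2.1, hv.2.2⟩
    · exact absurd h2 (by simp)
  · intro i j hij
    have h1 : (e.symm i).1 = (e.symm j).1 := Subtype.ext hij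
    exact e.symm.injective (Subtype.ext h1)
  · intro i j hij
    have h1 : f (e.symm i).1 = f (e.symm j).1 := by rw [hq i, hq j, hij]
    exact e.symm.injective (Subtype.ext (hf h1))

end

end Pool.Agent.Q114.SW
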