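import Pool.Agent.Q114.SW.Lin
import Pool.Agent.Y335.FL.Ex17
import Pool.Agent.Y335.FL.Iso

/-!
# Boundaries of vertex sets with 21 to 79 elements
-/

set_option autoImplicit false
set_option linter.unusedSectionVars false

namespace Pool.Agent.Q114.SW

open Finset Pool.Agent.Y335.FL Pool.Agent.Y335.FL.IsoAux

section
variable {V : Type} [DecidableEq V] {a : V → V → ℕ}

/-- peeling of vertices of degree at most one -/
theorem core' (ha : ∀ x y, a x y = a y x) (h0 : ∀ x, a x x = 0) (k : ℕ) :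
    ∀ (n : ℕ) (X : Finset V), X.card = n → X.Nonempty →
    2 * X.card + k ≤ Dg a X →
    ∃ Y ⊆ X, Y.Nonempty ∧ (∀ y ∈ Y, 2 ≤ ∑ z ∈ Y, a y z) ∧ 2 * Y.card + k ≤ Dg a Y := by
  intro n
  induction n with
  | zero =>
    intro X hX hne h
    rw [Finset.card_eq_zero] at hX
    subst hX
    simp at hne
  | succ n ih =>
    intro X hX hne h
    by_cases hd : ∀ y ∈ X, 2 ≤ ∑ z ∈ X, a y z
    · exact ⟨X, Subset.refl X, hne, hd, h⟩
    · push Not at hd
      obtain ⟨v, hv, hd⟩ := hd
      have h1 := Dg_erase ha h0 hv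
      have h2 := Finset.card_erase_of_mem hv
      have h3 : (X.erase v).Nonempty := by
        rw [Finset.nonempty_iff_ne_empty]
        intro h4
        have h5 : Dg a (X.erase v) = 0 := by rw [h4]; simp [Dg]
        have h6 : (X.erase v).card = 0 := by rw [h4]; simp
        have h7 : ∑ z ∈ X, a v z = 0 := by
          rw [← Finset.add_sum_erase _ _ hv, h4, h0]
          simp
        omega
      obtain ⟨Y, hY1, hY2, hY3, hY4⟩ := ih (X.erase v) (by omega) h3 (by omega)
      exact ⟨Y, hY1.trans (Finset.erase_subset _ _), hY2, hY3, hY4⟩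

end

section
variable {V : Type} [Fintype V] [DecidableEq V] (G : SimpleGraph V) [DecidableRel G.Adj]

/-- the indicator of the adjacency -/
def aj (x y : V) : ℕ := if G.Adj x y then 1 else 0

variable {G}

/-- a subgraph with many edges has many vertices -/
theorem cb (hg : Girth G.Adj 12) {U X : Finset V} (hne : X.Nonempty) {k : ℕ}
    (hk : 2 * X.card + k ≤ Dg (ai G U) X) :
    12 ≤ X.card ∧ (5 ≤ k → 23 ≤ X.card) ∧ (7 ≤ k → X.card ≤ 66 → k + 19 ≤ X.card) := by
  have has : ∀ x y, ai G U x y = ai G U y x := by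
    intro x y
    unfold ai
    exact if_congr (and_congr (G.adj_comm x y) or_comm) rfl rfl
  have ha0 : ∀ x, ai G U x x = 0 := by
    intro x
    unfold ai
    rw [if_neg fun h => G.loopless.irrefl x h.1]
  obtain ⟨Y, hY1, hY2, hY3, hY4⟩ := core' has ha0 k _ X rfl hne hk
  have h1 := Dg_GY G U Y
  have h2 : Fintype.card {x // x ∈ Y} = Y.card := Fintype.card_coe Y
  have h3 := Finset.card_le_card hY1
  have hdeg : ∀ v : {x // x ∈ Y}, 2 ≤ (GY G U Y).degree v := fun v => by
    rw [deg_GY]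
    exact hY3 v.1 v.2
  have hgY := girth_GY G U Y hg
  have : Nonempty {x // x ∈ Y} := ⟨⟨hY2.choose, hY2.choose_spec⟩⟩
  have hahl := ahl {x // x ∈ Y} (GY G U Y) hdeg hgY
  have hnpos : 0 < Y.card := Finset.card_pos.2 hY2
  obtain ⟨m, hm⟩ : ∃ m, m = (GY G U Y).edgeFinset.card := ⟨_, rfl⟩
  obtain ⟨n, hn⟩ : ∃ n, n = Y.card := ⟨_, rfl⟩
  rw [h2, ← hm, ← hn] at hahl
  rw [← hm] at h1
  rw [← hn] at hnpos hY4 h3
  have hn0 : (0 : ℝ) < n := by exact_mod_cast hnpos
  have key : ∀ y : ℝ, 0 ≤ y → y * n ≤ 2 * m - n → 2 * ∑ i ∈ range 6, y ^ i ≤ n := by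
    intro y hy hyn
    refine le_trans ?_ hahl
    refine mul_le_mul_of_nonneg_left (Finset.sum_le_sum fun i _ => ?_) (by norm_num)
    refine pow_le_pow_left₀ hy ?_ i
    rw [le_sub_iff_add_le, le_div_iff₀ hn0]
    linarith
  have hmk : 2 * n + k ≤ 2 * m := by omega
  refine ⟨?_, ?_, ?_⟩
  · have h5 := key 1 (by norm_num) (by
      have : (2 : ℝ) * n ≤ 2 * m := by exact_mod_cast (by omega : 2 * n ≤ 2 * m)
      linarith)
    norm_num at h5
    have h6 : 12 ≤ n := by exact_mod_cast h5
    omega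
  · intro hk5
    by_contra hcon
    have h22 : n ≤ 22 := by omega
    have hm3 : (n : ℝ) + 3 ≤ m := by exact_mod_cast (by omega : n + 3 ≤ m)
    have h5 := key (1 + 6 / n) (by positivity) (by
      rw [add_mul, div_mul_cancel₀ _ hn0.ne']
      linarith)
    clear key hahl hm3 hmk hn hm h1 h3 hY4 hn0 hcon
    interval_cases n <;> norm_num [Finset.sum_range_succ] at h5
  · intro hk7 h66
    have h5 := ex17 ahl {x // x ∈ Y} (GY G U Y) hdeg hgY (by omega) (by
      rw [h2, ← hm, ← hn]
      omega)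
    rw [h2, ← hm, ← hn] at h5
    omega

open Classical in
/-- vertex sets with 21 to 79 elements and degrees at least three have at least 17 outer
neighbours -/
theorem iso16 (hg : Girth G.Adj 12) (U : Finset V) (hU : ∀ v ∈ U, 3 ≤ G.degree v)
    (h21 : 21 ≤ U.card) (h79 : U.card ≤ 79) :
    17 ≤ (univ.filter (fun v => v ∉ U ∧ ∃ x ∈ U, G.Adj x v)).card := by
  by_contra hcon
  rw [not_le] at hcon
  obtain ⟨N, hN⟩ : ∃ N : Finset V, N = univ.filter (fun v => v ∉ U ∧ ∃ x ∈ U, G.Adj x v) :=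
    ⟨_, rfl⟩
  rw [← hN] at hcon
  have hNm : ∀ v, v ∈ N ↔ v ∉ U ∧ ∃ x ∈ U, G.Adj x v := by
    intro v
    rw [hN]
    simp
  have has : ∀ x y, ai G U x y = ai G U y x := by
    intro x y
    unfold ai
    exact if_congr (and_congr (G.adj_comm x y) or_comm) rfl rfl
  -- the two kinds of outer neighbours
  obtain ⟨N1, hN1⟩ : ∃ N1, N1 = N.filter (fun v => ∑ y ∈ U, ai G U v y ≤ 1) := ⟨_, rfl⟩
  obtain ⟨N2, hN2⟩ : ∃ N2, N2 = N.filter (fun v => ¬ ∑ y ∈ U, ai G U v y ≤ 1) := ⟨_, rfl⟩
  have hNc : N1.card + N2.card = N.card := by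
    rw [hN1, hN2]
    exact Finset.card_filter_add_card_filter_not _
  have hN1N : N1 ⊆ N := by rw [hN1]; exact filter_subset _ _
  have hN2N : N2 ⊆ N := by rw [hN2]; exact filter_subset _ _
  have hdis2 : Disjoint U N2 :=
    Finset.disjoint_left.2 fun v hv hvN => ((hNm v).1 (hN2N hvN)).1 hv
  have hone : ∀ v ∈ N1, ∑ y ∈ U, ai G U v y ≤ 1 := by
    intro v hv
    rw [hN1, mem_filter] at hv
    exact hv.2
  have htwo : ∀ v ∈ N2, 2 ≤ ∑ y ∈ U, ai G U v y := by
    intro v hv
    rw [hN2, mem_filter] at hv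
    omega
  have hNN : ∀ v ∈ N, ∀ y ∈ N, ai G U v y = 0 := by
    intro v hv y hy
    unfold ai
    rw [if_neg]
    rintro ⟨-, h | h⟩
    · exact ((hNm v).1 hv).1 h
    · exact ((hNm y).1 hy).1 h
  set Y := U ∪ N2 with hY
  have hYc : Y.card = U.card + N2.card := Finset.card_union_of_disjoint hdis2
  have hsplit : ∀ v, ∑ y ∈ Y, ai G U v y = ∑ y ∈ U, ai G U v y + ∑ y ∈ N2, ai G U v y :=
    fun v => Finset.sum_union hdis2
  -- the degrees of the vertices of `U`
  have hdegU : ∀ v ∈ U, 3 ≤ ∑ y ∈ Y, ai G U v y + ∑ y ∈ N1, ai G U v y := by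
    intro v hv
    have hdis : Disjoint Y N1 := by
      rw [hY, disjoint_union_left]
      refine ⟨Finset.disjoint_left.2 fun x hx hxN => ((hNm x).1 (hN1N hxN)).1 hx, ?_⟩
      rw [hN1, hN2]
      exact (Finset.disjoint_filter_filter_not _ _ _).symm
    rw [← Finset.sum_union hdis]
    refine (hU v hv).trans ?_
    rw [← SimpleGraph.card_neighborFinset_eq_degree]
    have h2 : ∀ y ∈ Y ∪ N1, ai G U v y = if G.Adj v y then 1 else 0 := by
      intro y _
      unfold ai
      simp [hv]
    rw [Finset.sum_congr rfl h2, ← Finset.card_filter]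
    refine Finset.card_le_card fun y hy => ?_
    rw [SimpleGraph.mem_neighborFinset] at hy
    rw [Finset.mem_filter]
    refine ⟨?_, hy⟩
    by_cases hyU : y ∈ U
    · exact Finset.mem_union_left _ (Finset.mem_union_left _ hyU)
    · have hyN : y ∈ N := (hNm y).2 ⟨hyU, v, hv, hy⟩
      by_cases h1 : ∑ z ∈ U, ai G U y z ≤ 1
      · refine Finset.mem_union_right _ ?_
        rw [hN1, mem_filter]
        exact ⟨hyN, h1⟩
      · refine Finset.mem_union_left _ (Finset.mem_union_right _ ?_)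
        rw [hN2, mem_filter]
        exact ⟨hyN, h1⟩
  have hUN1 : ∑ v ∈ U, ∑ y ∈ N1, ai G U v y ≤ N1.card := by
    rw [Finset.sum_comm, Finset.card_eq_sum_ones]
    refine Finset.sum_le_sum fun y hy => ?_
    refine le_trans (le_of_eq ?_) (hone y hy)
    exact Finset.sum_congr rfl fun v _ => has _ _
  -- the number of edges
  have hDg : 3 * Y.card ≤ Dg (ai G U) Y + N.card := by
    have e1 : Dg (ai G U) Y = ∑ v ∈ U, ∑ y ∈ Y, ai G U v y + ∑ v ∈ N2, ∑ y ∈ U, ai G U v y := by
      unfold Dg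
      rw [hY, Finset.sum_union hdis2, ← hY]
      congr 1
      refine Finset.sum_congr rfl fun v hv => ?_
      rw [hsplit, Finset.sum_eq_zero (s := N2) fun y hy => hNN v (hN2N hv) y (hN2N hy), add_zero]
    have e2 : 3 * U.card ≤ ∑ v ∈ U, ∑ y ∈ Y, ai G U v y + ∑ v ∈ U, ∑ y ∈ N1, ai G U v y := by
      rw [← Finset.sum_add_distrib, mul_comm, ← smul_eq_mul, ← Finset.sum_const]
      exact Finset.sum_le_sum hdegU
    have e3 : 2 * N2.card ≤ ∑ v ∈ N2, ∑ y ∈ U, ai G U v y := by
      rw [mul_comm, ← smul_eq_mul, ← Finset.sum_const]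
      exact Finset.sum_le_sum htwo
    omega
  have heven := Dg_GY G U Y
  have hYne : Y.Nonempty := by
    rw [← Finset.card_pos]
    omega
  rcases Nat.lt_or_ge Y.card 51 with h51 | h51
  · -- few vertices
    have hk : 2 * Y.card + (Y.card - 16) ≤ Dg (ai G U) Y := by omega
    have h1 := cb hg hYne hk
    have h2 := h1.2.1 (by omega)
    have h3 := h1.2.2 (by omega) (by omega)
    omega
  · -- many vertices
    have hl := lin (G := GY G U Y) (girth_GY G U Y hg)
    have hn : Fintype.card {x // x ∈ Y} = Y.card := Fintype.card_coe Y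
    have hD : (DD (GY G U Y)).card ≤ 16 := by
      have h1 : (DD (GY G U Y)).card ≤ (Y.filter (fun v => ∑ y ∈ Y, ai G U v y ≤ 2)).card := by
        refine Finset.card_le_card_of_injOn (fun v => v.1) ?_ ?_
        · intro v hv
          have hv' : v ∈ DD (GY G U Y) := hv
          rw [DD, mem_filter, deg_GY] at hv'
          exact mem_filter.2 ⟨v.2, hv'.2.2⟩
        · intro v _ w _ h
          exact Subtype.ext h
      refine h1.trans ?_
      have h2 : (Y.filter (fun v => ∑ y ∈ Y, ai G U v y ≤ 2)).card ≤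
          (U.filter (fun v => ∑ y ∈ Y, ai G U v y ≤ 2)).card + N2.card := by
        rw [hY, Finset.filter_union]
        refine (Finset.card_union_le _ _).trans ?_
        exact Nat.add_le_add_left (Finset.card_filter_le _ _) _
      have h3 : (U.filter (fun v => ∑ y ∈ Y, ai G U v y ≤ 2)).card ≤ N1.card := by
        refine le_trans ?_ hUN1
        rw [Finset.card_filter]
        refine Finset.sum_le_sum fun v hv => ?_
        have := hdegU v hv
        split_ifs with h4
        · omega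
        · exact Nat.zero_le _
      omega
    rw [hn] at hl
    obtain ⟨m, hm⟩ : ∃ m, m = (GY G U Y).edgeFinset.card := ⟨_, rfl⟩
    obtain ⟨n, hn'⟩ : ∃ n, n = Y.card := ⟨_, rfl⟩
    rw [← hm, ← hn'] at hl
    rw [← hm] at heven
    have h95 : n ≤ 95 := by omega
    have h51' : 51 ≤ n := by omega
    have h2m : 3 * n ≤ 2 * m + 16 := by omega
    have h258 : 126 * m ≤ m * n + 258 * 16 := by omega
    clear hl hD heven hDg hUN1 hdegU hsplit hYc hn hn' h51 hNc hm
    have hmul : (126 - n) * m ≤ 4128 := by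
      have : 126 * m = (126 - n) * m + n * m := by
        rw [← Nat.add_mul]
        congr 1
        omega
      nlinarith
    interval_cases n <;> omega

end

end Pool.Agent.Q114.SW
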