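import Pool.Agent.Y335.FL.Ahl

/-!
# A linear Moore bound for girth twelve
-/

set_option autoImplicit false
set_option linter.unusedSectionVars false

namespace Pool.Agent.Q114.SW

open Finset Pool.Agent.Y335.FL Pool.Agent.Y335.FL.Ahl

section

variable {V : Type} [Fintype V] [DecidableEq V] (G : SimpleGraph V) [DecidableRel G.Adj]

/-- the weight of a step at `y` -/
noncomputable def cc (y : V) : ℝ := if 3 ≤ G.degree y then 2 / ((G.degree y : ℝ) - 1) else 1

/-- the weighted number of walks -/
noncomputable def t : ℕ → V → V → ℝ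
  | 0, _, _ => 1
  | i + 1, x, y => cc G y * ∑ u ∈ (G.neighborFinset y).erase x, t i y u

variable {G}

lemma cc_nonneg (y : V) : 0 ≤ cc G y := by
  unfold cc
  split_ifs with h
  · have : (3 : ℝ) ≤ G.degree y := by exact_mod_cast h
    exact div_nonneg (by norm_num) (by linarith)
  · norm_num

lemma cc_le_one (y : V) : cc G y ≤ 1 := by
  unfold cc
  split_ifs with h
  · have : (3 : ℝ) ≤ G.degree y := by exact_mod_cast h
    rw [div_le_one (by linarith)]
    linarith
  · exact le_rfl

lemma t_nonneg : ∀ (i : ℕ) (x y : V), 0 ≤ t G i x y := by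
  intro i
  induction i with
  | zero => intro x y; simp [t]
  | succ i ih =>
    intro x y
    exact mul_nonneg (cc_nonneg y) (sum_nonneg fun u _ => ih y u)

lemma card_er {x y : V} (h : G.Adj x y) :
    (((G.neighborFinset y).erase x).card : ℝ) = (G.degree y : ℝ) - 1 := by
  have h1 : 1 ≤ G.degree y := by
    rw [← G.card_neighborFinset_eq_degree]
    exact card_pos.2 ⟨x, (G.mem_neighborFinset y x).2 h.symm⟩
  rw [card_erase_of_mem ((G.mem_neighborFinset y x).2 h.symm), G.card_neighborFinset_eq_degree,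
    Nat.cast_sub h1]
  norm_num

lemma t_le_T (hg : Girth G.Adj 12) : ∀ i ≤ 5, ∀ x y : V, G.Adj x y → t G i x y ≤ T G i x y := by
  intro i
  induction i with
  | zero =>
    intro _ x y h
    rw [T_zero h]
    simp [t]
  | succ i ih =>
    intro hi x y h
    rw [T_succ hg (by omega) h]
    push_cast
    have h1 : ∑ u ∈ (G.neighborFinset y).erase x, t G i y u ≤
        ∑ u ∈ (G.neighborFinset y).erase x, (T G i y u : ℝ) := by
      refine sum_le_sum fun u hu => ?_
      rw [mem_erase, G.mem_neighborFinset] at hu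
      exact ih (by omega) y u hu.2
    have h2 : 0 ≤ ∑ u ∈ (G.neighborFinset y).erase x, t G i y u :=
      sum_nonneg fun u _ => t_nonneg i y u
    have h3 : t G (i + 1) x y = cc G y * ∑ u ∈ (G.neighborFinset y).erase x, t G i y u := rfl
    rw [h3]
    nlinarith [cc_le_one (G := G) y]

lemma t_le_pow : ∀ (i : ℕ) (x y : V), G.Adj x y → t G i x y ≤ 2 ^ i := by
  intro i
  induction i with
  | zero => intro x y _; simp [t]
  | succ i ih =>
    intro x y h
    have h3 : t G (i + 1) x y = cc G y * ∑ u ∈ (G.neighborFinset y).erase x, t G i y u := rfl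
    have h1 : ∑ u ∈ (G.neighborFinset y).erase x, t G i y u ≤ ((G.degree y : ℝ) - 1) * 2 ^ i := by
      rw [← card_er h, ← nsmul_eq_mul, ← sum_const]
      refine sum_le_sum fun u hu => ?_
      rw [mem_erase, G.mem_neighborFinset] at hu
      exact ih y u hu.2
    have h2 : cc G y * ((G.degree y : ℝ) - 1) ≤ 2 := by
      unfold cc
      split_ifs with h4
      · have : (3 : ℝ) ≤ G.degree y := by exact_mod_cast h4
        rw [div_mul_cancel₀ _ (by linarith)]
      · have : (G.degree y : ℝ) < 3 := by exact_mod_cast (not_le.1 h4)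
        linarith
    rw [h3, pow_succ]
    have h5 : (0 : ℝ) < 2 ^ i := by positivity
    calc cc G y * ∑ u ∈ (G.neighborFinset y).erase x, t G i y u
        ≤ cc G y * (((G.degree y : ℝ) - 1) * 2 ^ i) := mul_le_mul_of_nonneg_left h1 (cc_nonneg y)
      _ = (cc G y * ((G.degree y : ℝ) - 1)) * 2 ^ i := by ring
      _ ≤ 2 * 2 ^ i := mul_le_mul_of_nonneg_right h2 h5.le
      _ = 2 ^ i * 2 := by ring

/-- the sum over the darts -/
noncomputable def SS (G : SimpleGraph V) [DecidableRel G.Adj] (i : ℕ) : ℝ :=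
  ∑ x, ∑ y ∈ G.neighborFinset x, t G i x y

/-- the vertices of degree one or two -/
def DD (G : SimpleGraph V) [DecidableRel G.Adj] : Finset V :=
  univ.filter (fun v => 1 ≤ G.degree v ∧ G.degree v ≤ 2)

lemma step2 (i : ℕ) : 2 * SS G i - (DD G).card * 2 ^ (i + 1) ≤ SS G (i + 1) := by
  have e1 : SS G (i + 1) = ∑ y, cc G y * (((G.degree y : ℝ) - 1) *
      ∑ u ∈ G.neighborFinset y, t G i y u) := by
    unfold SS
    rw [swap (fun x y => t G (i + 1) x y)]
    refine sum_congr rfl fun y _ => ?_
    have h1 : ∀ x ∈ G.neighborFinset y, t G (i + 1) x y = cc G y *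
        (∑ u ∈ G.neighborFinset y, t G i y u - t G i y x) := by
      intro x hx
      change cc G y * _ = _
      rw [← sum_erase_add _ _ hx]
      ring
    rw [sum_congr rfl h1, ← mul_sum, sum_sub_distrib, sum_const, nsmul_eq_mul,
      G.card_neighborFinset_eq_degree]
    ring
  have e2 : (((DD G).card : ℝ)) * 2 ^ (i + 1) =
      ∑ y : V, if 1 ≤ G.degree y ∧ G.degree y ≤ 2 then (2 : ℝ) ^ (i + 1) else 0 := by
    rw [← sum_filter, sum_const, nsmul_eq_mul]
    rfl
  rw [e1, e2]
  unfold SS
  rw [mul_sum, ← sum_sub_distrib]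
  refine sum_le_sum fun y _ => ?_
  set τ := ∑ u ∈ G.neighborFinset y, t G i y u with hτ
  have hτ0 : 0 ≤ τ := sum_nonneg fun u _ => t_nonneg i y u
  have hτ1 : τ ≤ G.degree y * 2 ^ i := by
    rw [← G.card_neighborFinset_eq_degree, ← nsmul_eq_mul, ← sum_const]
    refine sum_le_sum fun u hu => ?_
    exact t_le_pow i y u ((G.mem_neighborFinset y u).1 hu)
  have hp : (2 : ℝ) ^ (i + 1) = 2 * 2 ^ i := by ring
  unfold cc
  by_cases h3 : 3 ≤ G.degree y
  · have h4 : (3 : ℝ) ≤ G.degree y := by exact_mod_cast h3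
    rw [if_pos h3, if_neg (by omega)]
    rw [← mul_assoc, div_mul_cancel₀ _ (by linarith)]
    linarith
  · rw [if_neg h3, one_mul]
    have h4 : G.degree y = 0 ∨ G.degree y = 1 ∨ G.degree y = 2 := by omega
    rcases h4 with h4 | h4 | h4
    · rw [h4] at hτ1 ⊢
      norm_num at hτ1 ⊢
      linarith
    · rw [h4] at hτ1 ⊢
      norm_num at hτ1 ⊢
      rw [hp]
      linarith
    · rw [h4] at hτ1 ⊢
      norm_num at hτ1 ⊢
      rw [hp]
      linarith

lemma SS_zero : SS G 0 = 2 * (G.edgeFinset.card : ℝ) := by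
  unfold SS
  have h1 : ∀ x : V, ∑ y ∈ G.neighborFinset x, t G 0 x y = (G.degree x : ℝ) := by
    intro x
    simp [t]
  rw [sum_congr rfl fun x _ => h1 x]
  have h2 := G.sum_degrees_eq_twice_card_edges
  exact_mod_cast h2

lemma SS_ge (i : ℕ) : 2 ^ i * (2 * (G.edgeFinset.card : ℝ)) - (DD G).card * (i * 2 ^ i) ≤
    SS G i := by
  induction i with
  | zero => rw [SS_zero]; simp
  | succ i ih =>
    have h1 := step2 (G := G) i
    rw [pow_succ] at h1 ⊢
    push_cast
    nlinarith

/-- **the linear Moore bound** -/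
theorem lin (hg : Girth G.Adj 12) :
    126 * G.edgeFinset.card ≤ G.edgeFinset.card * Fintype.card V + 258 * (DD G).card := by
  set m : ℝ := (G.edgeFinset.card : ℝ) with hm
  have hsum : ∑ x, ∑ y ∈ G.neighborFinset x, ∑ i ∈ range 6, (t G i x y + t G i y x) ≤
      2 * m * Fintype.card V := by
    have h1 : ∑ x, ∑ y ∈ G.neighborFinset x, ∑ i ∈ range 6, (t G i x y + t G i y x) ≤
        ∑ x, ∑ _y ∈ G.neighborFinset x, (Fintype.card V : ℝ) := by
      refine sum_le_sum fun x _ => sum_le_sum fun y hy => ?_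
      have hxy := (G.mem_neighborFinset x y).1 hy
      have h2 := count hg hxy
      have h3 : ∑ i ∈ range 6, ((T G i x y : ℝ) + T G i y x) ≤ Fintype.card V := by
        exact_mod_cast h2
      refine le_trans (sum_le_sum fun i hi => ?_) h3
      rw [mem_range] at hi
      exact add_le_add (t_le_T hg i (by omega) x y hxy) (t_le_T hg i (by omega) y x hxy.symm)
    refine h1.trans (le_of_eq ?_)
    have h2 := G.sum_degrees_eq_twice_card_edges
    have h3 : ∑ v, (G.degree v : ℝ) = 2 * m := by rw [hm]; exact_mod_cast h2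
    rw [← h3, sum_mul]
    refine sum_congr rfl fun x _ => ?_
    rw [sum_const, nsmul_eq_mul, G.card_neighborFinset_eq_degree]
  have hsum2 : ∑ x, ∑ y ∈ G.neighborFinset x, ∑ i ∈ range 6, (t G i x y + t G i y x) =
      ∑ i ∈ range 6, 2 * SS G i := by
    have h1 : ∀ x : V, ∑ y ∈ G.neighborFinset x, ∑ i ∈ range 6, (t G i x y + t G i y x) =
        ∑ i ∈ range 6, ∑ y ∈ G.neighborFinset x, (t G i x y + t G i y x) :=
      fun x => sum_comm
    rw [sum_congr rfl fun x _ => h1 x, sum_comm]
    refine sum_congr rfl fun i _ => ?_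
    simp only [sum_add_distrib]
    rw [swap (fun x y => t G i y x)]
    unfold SS
    ring
  rw [hsum2] at hsum
  have hS : ∀ i, 2 ^ i * (2 * m) - (DD G).card * (i * 2 ^ i) ≤ SS G i := fun i => SS_ge i
  have h0 := hS 0
  have h1 := hS 1
  have h2 := hS 2
  have h3 := hS 3
  have h4 := hS 4
  have h5 := hS 5
  simp only [Finset.sum_range_succ, Finset.sum_range_zero] at hsum
  norm_num at h0 h1 h2 h3 h4 h5
  have hfin : 126 * m ≤ m * Fintype.card V + 258 * (DD G).card := by linarith
  rw [hm] at hfin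
  exact_mod_cast hfin

end

end Pool.Agent.Q114.SW
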