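import Pool.Agent.Q114.SW.Ram
import Pool.Agent.Q114.SW.Hall
import Pool.Agent.Q114.IM.Main
import Pool.Agent.Y335.FL.Tw
import Pool.Agent.Y335.FL.Order

/-!
# Nowhere-zero 5-flows and branch decompositions of the vertex set
-/

set_option autoImplicit false
set_option linter.unusedSectionVars false

namespace Pool.Agent.Q114.SW

open Finset Pool.Agent.TH676.Z Pool.Agent.Y335.FL Pool.Agent.Y358.IN Pool.Agent.Q165.SG
open Pool.Agent.Q114.IM
open TH362.Multi (ConnectedSet Linked Step)

/-- Binary trees whose leaves are labelled. -/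
inductive Layout (V : Type)
  | leaf : V → Layout V
  | node : Layout V → Layout V → Layout V

/-- The set of the labels of the leaves. -/
def Layout.labels {V : Type} [DecidableEq V] : Layout V → Finset V
  | leaf v => {v}
  | node l r => l.labels ∪ r.labels

/-- `P` holds for the sets of labels of all subtrees. -/
def Layout.All {V : Type} [DecidableEq V] (P : Finset V → Prop) : Layout V → Prop
  | leaf v => P {v}
  | node l r => P (l.labels ∪ r.labels) ∧ l.All P ∧ r.All P

/-- The vertex `v` is an end of the edge `e`. -/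
def IsEnd {V E : Type} (src dst : E → V) (e : E) (v : V) : Prop := src e = v ∨ dst e = v

/-- The edges `M i` have exactly one end in `A`, and different edges have no common ends. -/
def CutMatching {V E : Type} (src dst : E → V) (A : Finset V) {k : ℕ} (M : Fin k → E) : Prop :=
  (∀ i, ¬ (src (M i) ∈ A ↔ dst (M i) ∈ A)) ∧
  ∀ i j, i ≠ j → ∀ x y, IsEnd src dst (M i) x → IsEnd src dst (M j) y → x ≠ y

/-- No edge joins an end of `M i` and an end of `M j`, for `i ≠ j`. -/
def Induced {V E : Type} (src dst : E → V) {k : ℕ} (M : Fin k → E) : Prop :=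
  ∀ i j, i ≠ j → ∀ x y, IsEnd src dst (M i) x → IsEnd src dst (M j) y →
    ¬ ∃ e, (src e = x ∧ dst e = y) ∨ (src e = y ∧ dst e = x)

/-- There is no matching with 17 edges between `A` and the other vertices, or no induced matching
with 7 edges between `A` and the other vertices. -/
def Small {V E : Type} (src dst : E → V) (A : Finset V) : Prop :=
  (¬ ∃ M : Fin 17 → E, CutMatching src dst A M) ∨
  ¬ ∃ M : Fin 7 → E, CutMatching src dst A M ∧ Induced src dst M

section

variable {V E : Type} [Fintype V] [DecidableEq V] [Fintype E] [DecidableEq E]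

/-- a path which leaves a set -/
theorem linked_cross {src dst : E → V} {C : Set E} {A : Finset V} {a x : V}
    (h : Linked src dst C a x) (ha : a ∈ A) (hx : x ∉ A) :
    ∃ e ∈ C, ¬ (src e ∈ A ↔ dst e ∈ A) := by
  induction h with
  | refl => exact absurd ha hx
  | @tail b c _ h2 ih =>
    by_cases hb : b ∈ A
    · obtain ⟨e, he, h3⟩ := h2
      refine ⟨e, he, ?_⟩
      rcases h3 with ⟨h3, h4⟩ | ⟨h3, h4⟩
      · rw [h3, h4]
        tauto
      · rw [h3, h4]
        tauto
    · exact ih hb

/-- lifting of an edge of a cut -/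
theorem lift {src dst : E → V} {f : V → V}
    (hf : ∀ x y, f x = f y → Linked src dst {e | f (src e) = f x ∧ f (dst e) = f x} x y)
    {A : Finset V} {p q : V} (hp : p ∈ A.image f) (hq : q ∉ A.image f)
    (hpq : Adj (f ∘ src) (f ∘ dst) p q) :
    ∃ e, ¬ (src e ∈ A ↔ dst e ∈ A) ∧ (f (src e) = p ∨ f (src e) = q) ∧
      (f (dst e) = p ∨ f (dst e) = q) := by
  obtain ⟨a, ha, hap⟩ := mem_image.1 hp
  have hqA : ∀ y, f y = q → y ∉ A := fun y hy hyA => hq (mem_image.2 ⟨y, hyA, hy⟩)
  have key : ∀ x, f x = p → x ∉ A → ∃ e, ¬ (src e ∈ A ↔ dst e ∈ A) ∧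
      (f (src e) = p ∨ f (src e) = q) ∧ (f (dst e) = p ∨ f (dst e) = q) := by
    intro x hx hxA
    obtain ⟨e, ⟨h1, h2⟩, h3⟩ := linked_cross (hf a x (hap.trans hx.symm)) ha hxA
    exact ⟨e, h3, Or.inl (h1.trans hap), Or.inl (h2.trans hap)⟩
  obtain ⟨-, e, he⟩ := hpq
  rcases he with ⟨h1, h2⟩ | ⟨h1, h2⟩
  · have h1' : f (src e) = p := h1
    have h2' : f (dst e) = q := h2
    by_cases hx : src e ∈ A
    · exact ⟨e, fun h => hqA _ h2' (h.1 hx), Or.inl h1', Or.inr h2'⟩
    · exact key _ h1' hx
  · have h1' : f (src e) = q := h1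
    have h2' : f (dst e) = p := h2
    by_cases hx : dst e ∈ A
    · exact ⟨e, fun h => hqA _ h1' (h.2 hx), Or.inr h1', Or.inl h2'⟩
    · exact key _ h2' hx

/-- **5-flows**: branch decompositions all of whose cuts are small -/
theorem flowS (src dst : E → V) (hb : Br src dst ∅ ∅) (t : Layout V) (ht : t.labels = univ)
    (hsm : t.All (Small src dst)) : FlowOn src dst ∅ ∅ := by
  classical
  by_contra hn
  obtain ⟨s, d, ⟨f, rfl, rfl, hf⟩, hM⟩ :=
    exists_minC (quo_cc src dst) src dst (quo_refl src dst) hb hn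
  have hG := girthC contract_all hM
  have hT3 := threeC contract_all hM
  by_cases hloop : ∀ e, (f ∘ src) e = (f ∘ dst) e
  · exact hM.nf (flow_of_loops hloop)
  push Not at hloop
  obtain ⟨e0, he0⟩ := hloop
  have hsym : ∀ a b, Adj (f ∘ src) (f ∘ dst) a b → Adj (f ∘ src) (f ∘ dst) b a :=
    fun a b h => adj_symm h
  have hirr : ∀ a, ¬ Adj (f ∘ src) (f ∘ dst) a a := fun a h => h.1 rfl
  have hmoore := moore V (Adj (f ∘ src) (f ∘ dst)) hsym hirr hG hT3
    ⟨(f ∘ src) e0, (f ∘ dst) e0, he0, e0, Or.inl ⟨rfl, rfl⟩⟩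
  obtain ⟨G, hGd⟩ : ∃ G : SimpleGraph V, G = Tw.Gr (Adj (f ∘ src) (f ∘ dst)) hsym hirr := ⟨_, rfl⟩
  have hGa : ∀ a b, G.Adj a b ↔ Adj (f ∘ src) (f ∘ dst) a b := by
    intro a b
    rw [hGd]
    rfl
  have hgG : Girth G.Adj 12 := by
    rw [hGd]
    exact hG
  have hdeg : ∀ v, (∃ y, G.Adj v y) → 3 ≤ G.degree v := by
    rintro v ⟨y, hy⟩
    obtain ⟨a, b, c, ha, hb, hc, hab, hac, hbc⟩ := hT3 v y ((hGa v y).1 hy)
    rw [← SimpleGraph.card_neighborFinset_eq_degree]
    have hsub : ({a, b, c} : Finset V) ⊆ G.neighborFinset v := by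
      intro w hw
      rw [SimpleGraph.mem_neighborFinset, hGa]
      simp only [mem_insert, mem_singleton] at hw
      rcases hw with rfl | rfl | rfl
      · exact ha
      · exact hb
      · exact hc
    have h5 := card_le_card hsub
    rwa [card_eq_three.2 ⟨a, b, c, hab, hac, hbc, rfl⟩] at h5
  obtain ⟨NI, hNI⟩ : ∃ NI : Finset V, NI = univ.filter (fun v => ∃ y, G.Adj v y) := ⟨_, rfl⟩
  have hNIm : ∀ v, v ∈ NI ↔ ∃ y, G.Adj v y := by
    intro v
    rw [hNI]
    simp
  have h126 : 126 ≤ NI.card := by
    refine hmoore.trans (card_le_card ?_)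
    intro v hv
    rw [mem_filter] at hv
    obtain ⟨-, y, hy⟩ := hv
    exact (hNIm v).2 ⟨y, (hGa v y).2 hy⟩
  -- small cuts
  have hcut : ∀ A : Finset V, Small src dst A → ((A.image f) ∩ NI).card ≤ 72 →
      ((A.image f) ∩ NI).card ≤ 36 := by
    intro A hA h72
    set A' := (A.image f) ∩ NI with hA'
    have hno : ¬ ∃ p q : Fin (16 + 1) → V, (∀ i, p i ∈ A' ∧ q i ∉ A' ∧ G.Adj (p i) (q i)) ∧
        Function.Injective p ∧ Function.Injective q := by
      rintro ⟨p, q, h1, hp, hq⟩
      have hqA : ∀ i, q i ∉ A.image f := by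
        intro i h
        refine (h1 i).2.1 ?_
        rw [hA', mem_inter]
        exact ⟨h, (hNIm _).2 ⟨p i, (h1 i).2.2.symm⟩⟩
      have hpA : ∀ i, p i ∈ A.image f := by
        intro i
        have := (h1 i).1
        rw [hA', mem_inter] at this
        exact this.1
      have hpq : ∀ i j, p i ≠ q j := fun i j h => hqA j (h ▸ hpA i)
      have hl : ∀ i, ∃ e, ¬ (src e ∈ A ↔ dst e ∈ A) ∧ (f (src e) = p i ∨ f (src e) = q i) ∧
          (f (dst e) = p i ∨ f (dst e) = q i) := fun i =>
        lift hf (hpA i) (hqA i) ((hGa _ _).1 (h1 i).2.2)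
      choose M hM1 hM2 hM3 using hl
      have hend : ∀ i x, IsEnd src dst (M i) x → f x = p i ∨ f x = q i := by
        rintro i x (h | h)
        · rw [← h]
          exact hM2 i
        · rw [← h]
          exact hM3 i
      have hends : ∀ i j, i ≠ j → ∀ x y, IsEnd src dst (M i) x → IsEnd src dst (M j) y →
          f x ≠ f y := by
        intro i j hij x y hx hy hxy
        rcases hend i x hx with h2 | h2 <;> rcases hend j y hy with h3 | h3
        · exact hij (hp (h2.symm.trans (hxy.trans h3)))
        · exact hpq i j (h2.symm.trans (hxy.trans h3))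
        · exact hpq j i (h3.symm.trans (hxy.symm.trans h2))
        · exact hij (hq (h2.symm.trans (hxy.trans h3)))
      rcases hA with hA | hA
      · apply hA
        refine ⟨M, hM1, ?_⟩
        intro i j hij x y hx hy hxy
        exact hends i j hij x y hx hy (congrArg f hxy)
      · obtain ⟨J, -, hJ2, hJ3⟩ := ram (G := G) (p := p) (q := q) hp hq hpq
          (fun i => (h1 i).2.2) hgG (univ : Finset (Fin (16 + 1))) (by simp)
        apply hA
        let e := J.equivFinOfCardEq hJ2
        refine ⟨fun i => M (e.symm i).1, ⟨fun i => hM1 _, ?_⟩, ?_⟩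
        · intro i j hij x y hx hy hxy
          refine hends (e.symm i).1 (e.symm j).1 ?_ x y hx hy (congrArg f hxy)
          exact fun h => hij (e.symm.injective (Subtype.ext h))
        · intro i j hij x y hx hy hxy
          have hne : (e.symm i).1 ≠ (e.symm j).1 :=
            fun h => hij (e.symm.injective (Subtype.ext h))
          have hfxy := hends _ _ hne x y hx hy
          have hadj : G.Adj (f x) (f y) := by
            rw [hGa]
            refine ⟨hfxy, ?_⟩
            obtain ⟨e', he'⟩ := hxy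
            refine ⟨e', ?_⟩
            rcases he' with ⟨h2, h3⟩ | ⟨h2, h3⟩
            · exact Or.inl ⟨congrArg f h2, congrArg f h3⟩
            · exact Or.inr ⟨congrArg f h2, congrArg f h3⟩
          apply hJ3 _ (e.symm i).2 _ (e.symm j).2
          refine ⟨hne, ?_⟩
          rcases hend _ x hx with h2 | h2 <;> rcases hend _ y hy with h3 | h3 <;>
            rw [h2, h3] at hadj
          · exact Or.inl hadj
          · exact Or.inr (Or.inl hadj)
          · exact Or.inr (Or.inr (Or.inl hadj))
          · exact Or.inr (Or.inr (Or.inr hadj))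
    obtain ⟨S, hS1, hS2⟩ := hall G.Adj A' 16 hno
    have hSc : S.card ≤ 20 := by
      by_contra hcon
      push Not at hcon
      have h2 := card_le_card hS1
      have h3 := iso16 hgG S (by
        intro v hv
        have := hS1 hv
        rw [hA', mem_inter, hNIm] at this
        exact hdeg v this.2) (by omega) (by omega)
      have h4 : (univ.filter (fun v => v ∉ S ∧ ∃ x ∈ S, G.Adj x v)) ⊆
          (A' \ S) ∪ (univ.filter (fun v => v ∉ A' ∧ ∃ x ∈ S, G.Adj x v)) := by
        intro v hv
        rw [mem_filter] at hv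
        obtain ⟨-, hvS, hx⟩ := hv
        rw [mem_union, mem_sdiff, mem_filter]
        by_cases hvA : v ∈ A'
        · exact Or.inl ⟨hvA, hvS⟩
        · exact Or.inr ⟨mem_univ _, hvA, hx⟩
      have h5 := (card_le_card h4).trans (card_union_le _ _)
      omega
    have h6 := card_sdiff_add_card_eq_card hS1
    omega
  have main : ∀ t : Layout V, t.All (Small src dst) → ((t.labels.image f) ∩ NI).card ≤ 36 := by
    intro t
    induction t with
    | leaf v =>
      intro _
      refine (card_le_card inter_subset_left).trans ?_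
      change (({v} : Finset V).image f).card ≤ 36
      rw [image_singleton, card_singleton]
      omega
    | node l r ihl ihr =>
      rintro ⟨h1, h2, h3⟩
      have hl := ihl h2
      have hr := ihr h3
      change (((l.labels ∪ r.labels).image f) ∩ NI).card ≤ 36
      refine hcut _ h1 ?_
      have h4 : ((l.labels ∪ r.labels).image f) ∩ NI ⊆
          ((l.labels.image f) ∩ NI) ∪ ((r.labels.image f) ∩ NI) := by
        rw [image_union, union_inter_distrib_right]
      have h5 := (card_le_card h4).trans (card_union_le _ _)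
      omega
  have h1 := main t hsm
  have h2 : NI ⊆ (t.labels.image f) ∩ NI := by
    intro v hv
    rw [mem_inter]
    refine ⟨?_, hv⟩
    rw [ht]
    obtain ⟨y, hy⟩ := (hNIm v).1 hv
    obtain ⟨-, e, he⟩ := (hGa v y).1 hy
    rcases he with ⟨h3, -⟩ | ⟨-, h3⟩
    · exact mem_image.2 ⟨src e, mem_univ _, h3⟩
    · exact mem_image.2 ⟨dst e, mem_univ _, h3⟩
  have h3 := card_le_card h2
  omega

end

end Pool.Agent.Q114.SW
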