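import Pool.Agent.Q114.SW.Iso16

/-!
# Induced matchings inside matchings, girth twelve
-/

set_option autoImplicit false
set_option linter.unusedSectionVars false

namespace Pool.Agent.Q114.SW

open Finset Pool.Agent.Y335.FL Pool.Agent.Y335.FL.IsoAux

section

variable {V ι : Type} [Fintype V] [DecidableEq V] [DecidableEq ι]
  (G : SimpleGraph V) [DecidableRel G.Adj] (p q : ι → V)

/-- two edges which are not the edges of an induced matching -/
def Conf (i j : ι) : Prop :=
  i ≠ j ∧ (G.Adj (p i) (p j) ∨ G.Adj (p i) (q j) ∨ G.Adj (q i) (p j) ∨ G.Adj (q i) (q j))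

instance : DecidableRel (Conf G p q) := fun _ _ => inferInstanceAs (Decidable (_ ∧ _))

variable {G p q}

theorem conf_symm {i j : ι} (h : Conf G p q i j) : Conf G p q j i := by
  obtain ⟨h1, h2⟩ := h
  refine ⟨h1.symm, ?_⟩
  rcases h2 with h2 | h2 | h2 | h2
  · exact Or.inl h2.symm
  · exact Or.inr (Or.inr (Or.inl h2.symm))
  · exact Or.inr (Or.inl h2.symm)
  · exact Or.inr (Or.inr (Or.inr h2.symm))

section
variable (hp : Function.Injective p) (hq : Function.Injective q) (hpq : ∀ i j, p i ≠ q j)
  (hadj : ∀ i, G.Adj (p i) (q i))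
include hp hq hpq hadj

/-- the number of ends -/
theorem card_ends (I : Finset ι) : (I.image p ∪ I.image q).card = 2 * I.card := by
  have hdis : Disjoint (I.image p) (I.image q) := by
    rw [Finset.disjoint_left]
    intro v h1 h2
    obtain ⟨i, -, rfl⟩ := mem_image.1 h1
    obtain ⟨j, -, h3⟩ := mem_image.1 h2
    exact hpq i j h3.symm
  rw [card_union_of_disjoint hdis, card_image_of_injective _ hp, card_image_of_injective _ hq]
  ring

theorem Dg_ends (I : Finset ι) {c : ℕ} (hc : ∀ i ∈ I, c ≤ (I.filter (Conf G p q i)).card) :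
    (2 + c) * I.card ≤ Dg (ai G univ) (I.image p ∪ I.image q) := by
  have hdis : Disjoint (I.image p) (I.image q) := by
    rw [Finset.disjoint_left]
    intro v h1 h2
    obtain ⟨i, -, rfl⟩ := mem_image.1 h1
    obtain ⟨j, -, h3⟩ := mem_image.1 h2
    exact hpq i j h3.symm
  have hai : ∀ x y, ai G univ x y = if G.Adj x y then 1 else 0 := by
    intro x y
    unfold ai
    simp
  have hsum : ∀ g : V → ℕ, ∑ v ∈ I.image p ∪ I.image q, g v = ∑ i ∈ I, (g (p i) + g (q i)) := by
    intro g
    rw [sum_union hdis, sum_image (fun a _ b _ h => hp h), sum_image (fun a _ b _ h => hq h),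
      sum_add_distrib]
  unfold Dg
  rw [hsum, mul_comm, ← smul_eq_mul, ← sum_const]
  refine sum_le_sum fun i hi => ?_
  rw [hsum, hsum, ← sum_add_distrib]
  have h1 : ∀ j ∈ I, ((if i = j then 2 else 0) + if Conf G p q i j then 1 else 0) ≤
      (ai G univ (p i) (p j) + ai G univ (p i) (q j)) +
      (ai G univ (q i) (p j) + ai G univ (q i) (q j)) := by
    intro j _
    rw [hai, hai, hai, hai]
    by_cases hij : i = j
    · subst hij
      rw [if_pos rfl, if_neg (show ¬ Conf G p q i i from fun h => h.1 rfl),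
        if_pos (hadj i), if_pos (hadj i).symm]
      omega
    · rw [if_neg hij, zero_add]
      by_cases hC : Conf G p q i j
      · rw [if_pos hC]
        rcases hC.2 with h | h | h | h
        · rw [if_pos h]; omega
        · rw [if_pos h]; omega
        · rw [if_pos h]; omega
        · rw [if_pos h]; omega
      · rw [if_neg hC]
        exact Nat.zero_le _
  refine le_trans ?_ (sum_le_sum h1)
  rw [sum_add_distrib, ← card_filter, sum_ite_eq, if_pos hi]
  exact Nat.add_le_add_left (hc i hi) 2

variable (hg : Girth G.Adj 12)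
include hg

theorem low2 (I : Finset ι) (h8 : 8 ≤ I.card) (h17 : I.card ≤ 17) :
    ∃ i ∈ I, (I.filter (Conf G p q i)).card ≤ 2 := by
  by_contra hcon
  push Not at hcon
  have h1 := Dg_ends hp hq hpq hadj I (c := 3) (fun i hi => hcon i hi)
  have h2 := card_ends hp hq hpq hadj I
  have hne : (I.image p ∪ I.image q).Nonempty := by
    rw [← card_pos]
    omega
  have h3 := (cb hg hne (k := I.card) (U := univ) (by omega)).2.2 (by omega) (by omega)
  omega

theorem low1 (I : Finset ι) (h1 : 1 ≤ I.card) (h5 : I.card ≤ 5) :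
    ∃ i ∈ I, (I.filter (Conf G p q i)).card ≤ 1 := by
  by_contra hcon
  push Not at hcon
  have h1 := Dg_ends hp hq hpq hadj I (c := 2) (fun i hi => hcon i hi)
  have h2 := card_ends hp hq hpq hadj I
  have hne : (I.image p ∪ I.image q).Nonempty := by
    rw [← card_pos]
    omega
  have h3 := (cb hg hne (k := 0) (U := univ) (by omega)).1
  omega

omit hp hq hpq hadj hg in
theorem stepP {n c k : ℕ}
    (hlow : ∀ I : Finset ι, I.card = n → ∃ i ∈ I, (I.filter (Conf G p q i)).card ≤ c)
    (hP : ∀ I : Finset ι, n - 1 - c ≤ I.card → ∃ J ⊆ I, J.card = k ∧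
      ∀ i ∈ J, ∀ j ∈ J, ¬ Conf G p q i j) :
    ∀ I : Finset ι, n ≤ I.card → ∃ J ⊆ I, J.card = k + 1 ∧
      ∀ i ∈ J, ∀ j ∈ J, ¬ Conf G p q i j := by
  intro I hI
  obtain ⟨I', hI'1, hI'2⟩ := exists_subset_card_eq hI
  obtain ⟨i, hi, hic⟩ := hlow I' hI'2
  have hsub : I'.filter (Conf G p q i) ⊆ I'.erase i := by
    intro j hj
    rw [mem_filter] at hj
    exact mem_erase.2 ⟨hj.2.1.symm, hj.1⟩
  obtain ⟨J, hJ1, hJ2, hJ3⟩ := hP ((I'.erase i) \ (I'.filter (Conf G p q i))) (by
    rw [card_sdiff_of_subset hsub, card_erase_of_mem hi]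
    omega)
  have hiJ : i ∉ J := by
    intro h
    have := hJ1 h
    rw [mem_sdiff, mem_erase] at this
    exact this.1.1 rfl
  have hnc : ∀ j ∈ J, ¬ Conf G p q i j := by
    intro j hj hC
    have := hJ1 hj
    rw [mem_sdiff, mem_erase, mem_filter] at this
    exact this.2 ⟨this.1.2, hC⟩
  refine ⟨insert i J, ?_, ?_, ?_⟩
  · intro j hj
    rw [mem_insert] at hj
    rcases hj with rfl | hj
    · exact hI'1 hi
    · have := hJ1 hj
      rw [mem_sdiff, mem_erase] at this
      exact hI'1 this.1.2
  · rw [card_insert_of_notMem hiJ, hJ2]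
  · intro a ha b hb
    rw [mem_insert] at ha hb
    rcases ha with rfl | ha
    · rcases hb with rfl | hb
      · exact fun h => h.1 rfl
      · exact hnc b hb
    · rcases hb with rfl | hb
      · exact fun h => hnc a ha (conf_symm h)
      · exact hJ3 a ha b hb

/-- every matching with 17 edges contains an induced matching with 7 edges -/
theorem ram (I : Finset ι) (h17 : 17 ≤ I.card) : ∃ J ⊆ I, J.card = 7 ∧
    ∀ i ∈ J, ∀ j ∈ J, ¬ Conf G p q i j := by
  have P1 : ∀ I : Finset ι, 1 ≤ I.card → ∃ J ⊆ I, J.card = 1 ∧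
      ∀ i ∈ J, ∀ j ∈ J, ¬ Conf G p q i j := by
    intro I hI
    obtain ⟨i, hi⟩ := card_pos.1 hI
    refine ⟨{i}, singleton_subset_iff.2 hi, card_singleton i, ?_⟩
    intro a ha b hb
    rw [mem_singleton] at ha hb
    subst ha hb
    exact fun h => h.1 rfl
  have P3 := stepP (G := G) (p := p) (q := q) (n := 3) (c := 1) (k := 1)
    (fun I hI => low1 hp hq hpq hadj hg I (by omega) (by omega)) P1
  have P5 := stepP (G := G) (p := p) (q := q) (n := 5) (c := 1) (k := 2)
    (fun I hI => low1 hp hq hpq hadj hg I (by omega) (by omega)) P3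
  have P8 := stepP (G := G) (p := p) (q := q) (n := 8) (c := 2) (k := 3)
    (fun I hI => low2 hp hq hpq hadj hg I (by omega) (by omega)) P5
  have P11 := stepP (G := G) (p := p) (q := q) (n := 11) (c := 2) (k := 4)
    (fun I hI => low2 hp hq hpq hadj hg I (by omega) (by omega)) P8
  have P14 := stepP (G := G) (p := p) (q := q) (n := 14) (c := 2) (k := 5)
    (fun I hI => low2 hp hq hpq hadj hg I (by omega) (by omega)) P11
  have P17 := stepP (G := G) (p := p) (q := q) (n := 17) (c := 2) (k := 6)
    (fun I hI => low2 hp hq hpq hadj hg I (by omega) (by omega)) P14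
  exact P17 I h17

end

end

end Pool.Agent.Q114.SW
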